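import Pool.Agent.K3h46.AS.Stm3
import Pool.Agent.K3h85.AS.LOG

/-!
# LOGW: forms of weight `d`
-/

set_option autoImplicit false

namespace Pool.Agent.K3h86.AS

open Pool.Agent.K3h46.AS

variable {F : Type} [Field F]

theorem supp_XX (h : MvPolynomial (Fin 2) F) {s : Fin 2 →₀ ℕ}
    (hs : s ∈ (MvPolynomial.X 0 * MvPolynomial.X 1 * h : MvPolynomial (Fin 2) F).support) :
    1 ≤ s 0 ∧ 1 ≤ s 1 := by
  classical
  rw [MvPolynomial.mem_support_iff] at hs
  constructor
  · rw [mul_assoc, MvPolynomial.coeff_X_mul'] at hs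
    split_ifs at hs with h0
    · exact Nat.one_le_iff_ne_zero.2 (Finsupp.mem_support_iff.1 h0)
    · exact absurd rfl hs
  · rw [mul_comm (MvPolynomial.X 0) (MvPolynomial.X 1), mul_assoc,
      MvPolynomial.coeff_X_mul'] at hs
    split_ifs at hs with h0
    · exact Nat.one_le_iff_ne_zero.2 (Finsupp.mem_support_iff.1 h0)
    · exact absurd rfl hs

/-- the exponents of `G` -/
theorem exp_of_ne (W : Wt) (N : ℕ) (h : MvPolynomial (Fin 2) F) (G : Polynomial F)
    (hG : Polynomial.X * G =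
      (toZ W (MvPolynomial.X 0 * MvPolynomial.X 1 * h)).coeff N) {e : ℕ} (he : G.coeff e ≠ 0) :
    ∃ I J : ℕ, 1 ≤ I ∧ 1 ≤ J ∧ W.n * I + W.m * J = N ∧ W.be * I + W.al * J = e + 1 := by
  have h1 : (Polynomial.X * G).coeff (e + 1) ≠ 0 := by
    rwa [Polynomial.coeff_X_mul]
  rw [hG] at h1
  by_contra hcon
  apply h1
  refine toZ_coeff_zero W _ N (e + 1) fun s hs h2 => hcon ?_
  obtain ⟨h3, h4⟩ := supp_XX h hs
  exact ⟨s 0, s 1, h3, h4, h2.1, h2.2⟩

/-- `p`-th powers are constants -/
theorem iter_pow_mul (p : ℕ) [CharP F p] (A B : Polynomial F) (k : ℕ) :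
    Polynomial.derivative^[k] (A ^ p * B) = A ^ p * Polynomial.derivative^[k] B := by
  induction k generalizing B with
  | zero => rfl
  | succ k ih =>
    rw [Function.iterate_succ_apply, Function.iterate_succ_apply, Polynomial.derivative_mul,
      Polynomial.derivative_pow, CharP.cast_eq_zero, map_zero, zero_mul, zero_mul, zero_mul,
      zero_add, ih]

theorem coprime_mn (W : Wt) : Nat.Coprime W.m W.n := by
  rw [← Nat.isCoprime_iff_coprime]
  refine ⟨-(W.be : ℤ), (W.al : ℤ), ?_⟩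
  have h : (W.al : ℤ) * W.n = W.be * W.m + 1 := by exact_mod_cast W.hab
  linarith

theorem dvd_ne {p : ℕ} (hp : 1 < p) {x : ℕ} (hx : 0 < x) (h : x ∣ p - 1) : ¬ p ∣ x := by
  intro h1
  have h2 := Nat.le_of_dvd hx h1
  have h3 := Nat.le_of_dvd (by omega) h
  omega

theorem t_LOGW : S_LOGW := by
  intro p hp W F _ _ a b hirr hb hd h G hG heq
  have hp1 : 1 < p := hp.out.one_lt
  have hm := W.hm
  have hn := W.hn
  have hg := W.hg
  obtain ⟨c, hc⟩ : ∃ c, c = W.be * W.m * W.g := ⟨_, rfl⟩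
  -- the exponents
  have hexp : ∀ e, G.coeff e ≠ 0 → c ≤ e ∧ e + 1 < c + W.g := by
    intro e he
    obtain ⟨I, J, hI, hJ, h1, h2⟩ := exp_of_ne W W.d h G hG he
    have hcop := coprime_mn W
    have hJ' : W.n ∣ J := by
      have h3 : W.n ∣ W.m * J := by
        have h4 : W.n ∣ W.n * I + W.m * J := by
          rw [h1]
          exact Dvd.intro_left _ rfl
        exact (Nat.dvd_add_right (Dvd.intro _ rfl)).1 h4
      exact hcop.symm.dvd_of_dvd_mul_left h3
    have hI' : W.m ∣ I := by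
      have h3 : W.m ∣ W.n * I := by
        have h4 : W.m ∣ W.n * I + W.m * J := by
          rw [h1]
          exact ⟨W.g * W.n, by unfold Wt.d; ring⟩
        exact (Nat.dvd_add_left (Dvd.intro _ rfl)).1 h4
      exact hcop.dvd_of_dvd_mul_left h3
    obtain ⟨J', rfl⟩ := hJ'
    obtain ⟨I', rfl⟩ := hI'
    have h3 : I' + J' = W.g := by
      have h4 : (W.m * W.n) * (I' + J') = (W.m * W.n) * W.g := by
        have h5 : W.n * (W.m * I') + W.m * (W.n * J') = W.g * W.m * W.n := h1
        linarith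
      exact Nat.eq_of_mul_eq_mul_left (by positivity) h4
    have hJ1 : 1 ≤ J' := Nat.one_le_iff_ne_zero.2 (by rintro rfl; simp at hJ)
    have hI1 : 1 ≤ I' := Nat.one_le_iff_ne_zero.2 (by rintro rfl; simp at hI)
    have h6 : e + 1 = c + J' := by
      rw [← h2, hc, ← h3]
      have h7 : W.al * (W.n * J') = (W.be * W.m + 1) * J' := by rw [← mul_assoc, W.hab]
      rw [h7]
      ring
    omega
  -- division by `u ^ c`
  have hdvd : Polynomial.X ^ c ∣ G := by
    rw [Polynomial.X_pow_dvd_iff]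
    intro e he
    by_contra h1
    have := (hexp e h1).1
    omega
  obtain ⟨H, rfl⟩ := hdvd
  have hHdeg : H.degree < ((W.g - 1 : ℕ) : WithBot ℕ) := by
    rw [Polynomial.degree_lt_iff_coeff_zero]
    intro j hj
    by_contra h1
    have h2 := (hexp (j + c) (by rwa [Polynomial.coeff_X_pow_mul])).2
    omega
  have hΦ : (Polynomial.C a + Polynomial.C b * Polynomial.X ^ W.g).natDegree = W.g := by
    rw [Polynomial.natDegree_add_eq_right_of_natDegree_lt]
    · exact Polynomial.natDegree_C_mul_X_pow _ _ hb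
    · rw [Polynomial.natDegree_C_mul_X_pow _ _ hb, Polynomial.natDegree_C]
      exact hg
  have hpg : ¬ p ∣ W.g := dvd_ne hp1 hg (dvd_trans ⟨W.m * W.n, by unfold Wt.d; ring⟩ hd)
  have hkey : H ^ p + (Polynomial.derivative^[p - 1])
      ((Polynomial.C a + Polynomial.C b * Polynomial.X ^ W.g) ^ (p - 1) * H) = 0 := by
    have h1 : topW W a b ^ (p - 1) * (Polynomial.X ^ c * H) = (Polynomial.X ^ c) ^ p *
        ((Polynomial.C a + Polynomial.C b * Polynomial.X ^ W.g) ^ (p - 1) * H) := by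
      unfold topW
      rw [← hc, mul_pow]
      have h2 : ((Polynomial.X ^ c : Polynomial F)) ^ p =
          (Polynomial.X ^ c) ^ (p - 1) * Polynomial.X ^ c := by
        rw [← pow_succ]
        congr 1
        omega
      rw [h2]
      ring
    rw [h1, iter_pow_mul p, mul_pow, ← mul_add] at heq
    rcases mul_eq_zero.1 heq with h2 | h2
    · exact absurd h2 (pow_ne_zero _ (pow_ne_zero _ Polynomial.X_ne_zero))
    · exact h2
  have hH0 : H = 0 := by
    refine Pool.Agent.K3h85.AS.t_LOG p F _ H hirr ?_ ?_ hkey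
    · rw [hΦ]
      exact hpg
    · rw [hΦ]
      exact hHdeg
  rw [hH0, mul_zero]

end Pool.Agent.K3h86.AS
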