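import Pool.Agent.K3h86.AS.LOGW

/-!
# MONW: forms of weight smaller than `d`
-/

set_option autoImplicit false

namespace Pool.Agent.K3h86.AS

open Pool.Agent.K3h46.AS

variable {F : Type} [Field F]

/-- the powers of the top coefficient -/
theorem topW_pow (W : Wt) (a b : F) (M : ℕ) : topW W a b ^ M =
    ∑ s ∈ Finset.range (M + 1), Polynomial.C (b ^ s * a ^ (M - s) * (M.choose s : F)) *
      Polynomial.X ^ (W.be * W.m * W.g * M + W.g * s) := by
  unfold topW
  rw [mul_pow, ← pow_mul, add_comm (Polynomial.C a), add_pow, Finset.mul_sum]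
  refine Finset.sum_congr rfl fun s _ => ?_
  rw [mul_pow, ← pow_mul, ← Polynomial.C_pow, ← Polynomial.C_pow, pow_add, Polynomial.C_mul,
    Polynomial.C_mul, map_natCast]
  ring

theorem t_MONW : S_MONW := by
  intro p hp W F _ _ a b ha hb hd N h G hN hG heq
  have hp1 : 1 < p := hp.out.one_lt
  have hm := W.hm
  have hn := W.hn
  have hg := W.hg
  obtain ⟨k, hk⟩ := hd
  have hd0 : 0 < W.d := by unfold Wt.d; positivity
  have hk0 : 0 < k := by
    rcases Nat.eq_zero_or_pos k with h0 | h0
    · rw [h0, mul_zero] at hk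
      omega
    · exact h0
  have hkd : (p - 1) / W.d = k := by rw [hk, Nat.mul_div_cancel_left _ hd0]
  rw [hkd] at heq
  have hpz : (p : ℤ) - 1 = W.g * W.m * W.n * k := by
    have h1 : ((p - 1 : ℕ) : ℤ) = ((W.d * k : ℕ) : ℤ) := by rw [hk]
    rw [Nat.cast_sub hp1.le] at h1
    unfold Wt.d at h1
    push_cast at h1
    linarith
  have hNk : N * k < p - 1 := by
    rw [hk]
    exact Nat.mul_lt_mul_of_pos_right hN hk0
  have hab : (W.al : ℤ) * W.n = W.be * W.m + 1 := by exact_mod_cast W.hab
  have hn' : ¬ p ∣ W.n :=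
    dvd_ne hp1 hn (dvd_trans ⟨W.g * W.m, by unfold Wt.d; ring⟩ ⟨k, hk⟩)
  by_contra hG0
  obtain ⟨e₀, he₀⟩ : ∃ e, G.coeff e ≠ 0 := by
    by_contra hcon
    push Not at hcon
    exact hG0 (Polynomial.ext fun e => by rw [hcon e, Polynomial.coeff_zero])
  obtain ⟨I₀, J₀, hI₀, hJ₀, h1, h2⟩ := exp_of_ne W N h G hG he₀
  obtain ⟨c, hc⟩ : ∃ c, c = W.be * W.m * W.g * (N * k) := ⟨_, rfl⟩
  obtain ⟨s₀, hs₀⟩ : ∃ s₀, s₀ = W.m * k * J₀ := ⟨_, rfl⟩
  obtain ⟨E, hE⟩ : ∃ E, E = c + W.g * s₀ + e₀ := ⟨_, rfl⟩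
  have hs₀N : s₀ ≤ N * k := by
    rw [hs₀, ← h1]
    have : W.m * k * J₀ = W.m * J₀ * k := by ring
    rw [this]
    exact Nat.mul_le_mul_right k (Nat.le_add_left _ _)
  -- `n (e + 1) = be N + J`
  have hne : ∀ {I J e : ℕ}, W.n * I + W.m * J = N → W.be * I + W.al * J = e + 1 →
      (W.n : ℤ) * (e + 1) = W.be * N + J := by
    intro I J e g1 g2
    have g1' : (W.n : ℤ) * I + W.m * J = N := by exact_mod_cast g1
    have g2' : (W.be : ℤ) * I + W.al * J = e + 1 := by exact_mod_cast g2
    linear_combination (-(W.n : ℤ)) * g2' + (W.be : ℤ) * g1' + (J : ℤ) * hab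
  have hnE : (W.n : ℤ) * (E + 1) = p * (W.be * N + J₀) := by
    have g3 := hne h1 h2
    rw [hE, hc, hs₀]
    push_cast
    linear_combination g3 - ((W.be : ℤ) * N + J₀) * hpz
  have hpE : p ∣ E + 1 := by
    have g1 : p ∣ W.n * (E + 1) := by
      have g2 : (p : ℤ) ∣ ((W.n * (E + 1) : ℕ) : ℤ) := by
        push_cast
        exact ⟨_, hnE⟩
      exact Int.natCast_dvd_natCast.1 g2
    exact (hp.out.dvd_mul.1 g1).resolve_left hn'
  have hEp : p ≤ E + 1 := Nat.le_of_dvd (Nat.succ_pos _) hpE
  -- the coefficient of `u ^ E`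
  have hcoef : (topW W a b ^ (N * k) * G).coeff E =
      b ^ s₀ * a ^ (N * k - s₀) * ((N * k).choose s₀ : F) * G.coeff e₀ := by
    rw [topW_pow, Finset.sum_mul, Polynomial.finsetSum_coeff]
    rw [Finset.sum_eq_single s₀]
    · rw [mul_assoc, Polynomial.coeff_C_mul, ← hc, hE, add_comm (c + W.g * s₀) e₀,
        Polynomial.coeff_X_pow_mul]
    · intro s hs hne'
      rw [Finset.mem_range] at hs
      rw [mul_assoc, Polynomial.coeff_C_mul, ← hc, Polynomial.coeff_X_pow_mul']
      split_ifs with hle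
      · by_contra hcon
        have he : G.coeff (E - (c + W.g * s)) ≠ 0 := fun h0 => hcon (by rw [h0, mul_zero])
        obtain ⟨e, he'⟩ : ∃ e, e = E - (c + W.g * s) := ⟨_, rfl⟩
        rw [← he'] at he
        obtain ⟨I, J, hI, hJ, g1, g2⟩ := exp_of_ne W N h G hG he
        have hEe : (E : ℤ) = c + W.g * s + e := by
          have : E = c + W.g * s + e := by omega
          exact_mod_cast this
        have g3 := hne g1 g2
        have g4 : (W.n : ℤ) * W.g * s + J = p * J₀ := by
          have g5 := hnE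
          rw [hEe, hc] at g5
          push_cast at g5
          linear_combination g5 - g3 + ((W.be : ℤ) * N) * hpz
        -- multiply by `m k`
        have g6 : (s : ℤ) - W.m * k * J = p * (s - W.m * k * J₀) := by
          linear_combination (-(W.m : ℤ) * k) * g4 - (s : ℤ) * hpz
        have hmJ : W.m * k * J ≤ N * k := by
          rw [← g1]
          have : W.m * k * J = W.m * J * k := by ring
          rw [this]
          exact Nat.mul_le_mul_right k (Nat.le_add_left _ _)
        have hmJ' : (W.m : ℤ) * k * J ≤ (N * k : ℕ) := by exact_mod_cast hmJ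
        have hNk' : ((N * k : ℕ) : ℤ) < p - 1 := by
          have : ((N * k : ℕ) : ℤ) < ((p - 1 : ℕ) : ℤ) := by exact_mod_cast hNk
          rwa [Nat.cast_sub hp1.le] at this
        have hs' : (s : ℤ) ≤ (N * k : ℕ) := by exact_mod_cast (Nat.lt_succ_iff.1 hs)
        have hs0' : (0 : ℤ) ≤ s := Int.natCast_nonneg _
        have hmJ0 : (0 : ℤ) ≤ W.m * k * J := by positivity
        have hpp : (0 : ℤ) < p := by exact_mod_cast hp.out.pos
        have g7 : (s : ℤ) - W.m * k * J₀ = 0 := by
          rcases lt_trichotomy ((s : ℤ) - W.m * k * J₀) 0 with g8 | g8 | g8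
          · exfalso
            have g9 : (s : ℤ) - W.m * k * J₀ ≤ -1 := by omega
            nlinarith
          · exact g8
          · exfalso
            have g9 : 1 ≤ (s : ℤ) - W.m * k * J₀ := by omega
            nlinarith
        apply hne'
        rw [hs₀]
        have : (s : ℤ) = ((W.m * k * J₀ : ℕ) : ℤ) := by
          push_cast
          linarith
        exact_mod_cast this
      · rw [mul_zero]
    · intro hs
      exact absurd (Finset.mem_range.2 (Nat.lt_succ_of_le hs₀N)) hs
  -- the derivative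
  have hder := congrArg (fun P : Polynomial F => P.coeff (E - (p - 1))) heq
  simp only [Polynomial.coeff_zero] at hder
  rw [Polynomial.coeff_iterate_derivative] at hder
  have hEE : E - (p - 1) + (p - 1) = E := by omega
  rw [hEE, hcoef, nsmul_eq_mul] at hder
  have hdf : ((E.descFactorial (p - 1) : ℕ) : F) ≠ 0 := by
    intro h0
    rw [CharP.cast_eq_zero_iff F p, Nat.descFactorial_eq_prod_range] at h0
    obtain ⟨i, hi, hi'⟩ := (hp.out.prime.dvd_finsetProd_iff _).1 h0
    rw [Finset.mem_range] at hi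
    have g1 : p ∣ (E + 1) - (E - i) := Nat.dvd_sub hpE hi'
    have g2 : (E + 1) - (E - i) = i + 1 := by omega
    rw [g2] at g1
    have := Nat.le_of_dvd (Nat.succ_pos _) g1
    omega
  have hch : (((N * k).choose s₀ : ℕ) : F) ≠ 0 := by
    intro h0
    rw [CharP.cast_eq_zero_iff F p] at h0
    have g1 : p ∣ (N * k).factorial := by
      rw [← Nat.choose_mul_factorial_mul_factorial hs₀N]
      exact Dvd.dvd.mul_right (Dvd.dvd.mul_right h0 _) _
    have g2 := (hp.out.dvd_factorial).1 g1
    omega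
  exact (mul_ne_zero hdf (mul_ne_zero (mul_ne_zero (mul_ne_zero (pow_ne_zero _ hb)
    (pow_ne_zero _ ha)) hch) he₀)) hder

end Pool.Agent.K3h86.AS
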